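import Mathlib

set_option autoImplicit false

/-!
# Polyamorous scheduling: poly density at most 5/6 does not imply schedulability

The instance has seven people `0, …, 6` and eight relationships
`3-5, 3-4, 4-6, 0-5, 1-6, 0-6, 0-2, 1-2` with frequencies `5, 2, 4, 2, 3, 6, 7, 3`.
Its poly density is `17/21 < 5/6` and it has no feasible schedule (every partial schedule dies
within 17 days).
-/

namespace Pool.Agent.Results.MP_90a930_lc.FiveSixthsFails

open Finset

section Defs

variable {V : Type}

/-- A matching of `G`: a finite set of edges of `G`, no two of which share a vertex. -/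
def IsMatching (G : SimpleGraph V) (M : Finset (Sym2 V)) : Prop :=
  (∀ e ∈ M, e ∈ G.edgeSet) ∧ ∀ e ∈ M, ∀ e' ∈ M, e ≠ e' → ∀ v : V, ¬ (v ∈ e ∧ v ∈ e')

/-- An inclusion-maximal matching of `G`. -/
def IsMaximalMatching (G : SimpleGraph V) (M : Finset (Sym2 V)) : Prop :=
  IsMatching G M ∧ ∀ M', IsMatching G M' → M ⊆ M' → M' = M

/-- `S` is a feasible schedule for the frequencies `f`: every day carries a matching, and every
edge `e` of `G` is in one of `S t, S (t+1), …, S (t + f e - 1)` for every `t`. -/
def IsFeasible (G : SimpleGraph V) (f : Sym2 V → ℕ) (S : ℕ → Finset (Sym2 V)) : Prop :=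
  (∀ t, IsMatching G (S t)) ∧ ∀ e ∈ G.edgeSet, ∀ t, ∃ i < f e, e ∈ S (t + i)

/-- The instance has a feasible schedule. -/
def Schedulable (G : SimpleGraph V) (f : Sym2 V → ℕ) : Prop :=
  ∃ S : ℕ → Finset (Sym2 V), IsFeasible G f S

/-- The weightings `z : R → [0,1]` of total weight `1` (`R` is the edge set of `G`). -/
def IsWeighting (G : SimpleGraph V) (z : Sym2 V → ℝ) : Prop :=
  (∀ e ∈ G.edgeSet, 0 ≤ z e ∧ z e ≤ 1) ∧ ∑ᶠ e ∈ G.edgeSet, z e = 1

/-- `max` over the inclusion-maximal matchings `M` of `∑_{e ∈ M} z e * f e`. -/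
noncomputable def maxLoad (G : SimpleGraph V) (f : Sym2 V → ℕ) (z : Sym2 V → ℝ) : ℝ :=
  sSup {x | ∃ M, IsMaximalMatching G M ∧ x = ∑ e ∈ M, z e * f e}

/-- The poly density: the maximum over the weightings `z` of `1 / maxLoad z`. -/
noncomputable def polyDensity (G : SimpleGraph V) (f : Sym2 V → ℕ) : ℝ :=
  sSup {d | ∃ z, IsWeighting G z ∧ d = 1 / maxLoad G f z}

end Defs

/-! ### The instance -/

/-- The eight edges. -/
def E : Fin 8 → Sym2 (Fin 7) :=
  ![s(3, 5), s(3, 4), s(4, 6), s(0, 5), s(1, 6), s(0, 6), s(0, 2), s(1, 2)]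

/-- Their frequencies. -/
def F : Fin 8 → ℕ := ![5, 2, 4, 2, 3, 6, 7, 3]

/-- The graph. -/
def G : SimpleGraph (Fin 7) := SimpleGraph.fromEdgeSet (Set.range E)

/-- The frequency function (irrelevant off the edge set). -/
def f (e : Sym2 (Fin 7)) : ℕ :=
  if e = E 0 then 5 else if e = E 1 then 2 else if e = E 2 then 4 else if e = E 3 then 2 else
  if e = E 4 then 3 else if e = E 5 then 6 else if e = E 6 then 7 else if e = E 7 then 3 else 1

theorem E_inj : Function.Injective E := by decide

theorem f_E (i : Fin 8) : f (E i) = F i := by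
  revert i; decide

theorem mem_edgeSet (e : Sym2 (Fin 7)) : e ∈ G.edgeSet ↔ ∃ i, E i = e := by
  unfold G
  rw [SimpleGraph.edgeSet_fromEdgeSet]
  constructor
  · rintro ⟨⟨i, hi⟩, -⟩
    exact ⟨i, hi⟩
  · rintro ⟨i, rfl⟩
    refine ⟨⟨i, rfl⟩, ?_⟩
    have : ∀ i : Fin 8, ¬ (E i).IsDiag := by decide
    exact this i

/-! ### Infeasibility -/

/-- One day of the deadline bookkeeping: edges served today get their full frequency back, the
others lose a day. -/
def step : List ℕ → List ℕ → List Bool → List ℕ
  | f :: fs, r :: rs, b :: bs => (if b then f else r - 1) :: step fs rs bs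
  | _, _, _ => []

/-- No edge has run out of time. -/
def valid (r : List ℕ) : Bool := r.all fun x => Nat.blt 0 x

/-- The maximal matchings, as indicator lists. -/
def mats : List (List Bool) :=
  [[false, true, false, true, true, false, false, false],
   [true, false, true, false, false, false, true, false],
   [true, false, false, false, true, false, true, false],
   [false, true, false, false, true, false, true, false],
   [true, false, true, false, false, false, false, true],
   [false, true, false, true, false, false, false, true],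
   [false, false, true, true, false, false, false, true],
   [true, false, false, false, false, true, false, true],
   [false, true, false, false, false, true, false, true]]

/-- Frequencies as a list. -/
def FL : List ℕ := [5, 2, 4, 2, 3, 6, 7, 3]

/-- Binary search trees of (state, rank). -/
inductive T where
  | nil : T
  | node : T → List ℕ → ℕ → T → T

/-- Lexicographic comparison. -/
def lt : List ℕ → List ℕ → Bool
  | a :: as, b :: bs => if Nat.blt a b then true else if Nat.blt b a then false else lt as bs
  | _, _ => false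

/-- Look up a state. -/
def T.find : T → List ℕ → Option ℕ
  | .nil, _ => none
  | .node l k r rr, x => if x == k then some r else if lt x k then l.find x else rr.find x

/-- Test all entries. -/
def T.all (p : List ℕ → ℕ → Bool) : T → Bool
  | .nil => true
  | .node l k r rr => p k r && (l.all p && rr.all p)

theorem T.find_all (p : List ℕ → ℕ → Bool) : ∀ (t : T), t.all p = true → ∀ x r,
    t.find x = some r → p x r = true
  | .nil, _, x, r, h => by simp [T.find] at h
  | .node l k r' rr, ha, x, r, h => by
    simp only [T.all, Bool.and_eq_true] at ha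
    unfold T.find at h
    split_ifs at h with h1 h2
    · have : x = k := by simpa using h1
      subst this
      simp only [Option.some.injEq] at h
      subst h
      exact ha.1
    · exact T.find_all p l ha.2.1 x r h
    · exact T.find_all p rr ha.2.2 x r h

/-- Build a tree from a sorted list. -/
def build : ℕ → List (List ℕ × ℕ) → T
  | 0, _ => .nil
  | n + 1, L =>
    match L.drop (L.length / 2) with
    | [] => .nil
    | (k, r) :: rest => .node (build n (L.take (L.length / 2))) k r (build n rest)

/-- Decode `rank * 10^8 + digits`. -/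
def decode (c : ℕ) : List ℕ × ℕ :=
  ([c / 10000000 % 10, c / 1000000 % 10, c / 100000 % 10, c / 10000 % 10, c / 1000 % 10,
    c / 100 % 10, c / 10 % 10, c % 10], c / 100000000)

/-- The reachable states, with the length of the longest valid continuation. -/
def codes : List ℕ := [
  11421123, 11421133, 11421153, 11421233, 11421243, 11421253, 11421333, 11421513, 11421523,
  11421533, 11421543, 11422123, 11422133, 11422153, 11422163, 11422213, 11422223, 11422233,
  11422243, 11422253, 11422263, 11422333, 11422363, 11422413, 11422423, 11422433, 12111633,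
  12111653, 12112633, 12112653, 12113271, 12113272, 12113471, 12121233, 12121253, 12121533,
  112122233, 112122253, 112122263, 1212122433, 112123231, 112123232, 112123252, 112123261,
  312123431, 512123532, 12212613, 12212623, 12212633, 12212643, 12213171, 12213172, 12213271,
  12213272, 12213371, 112222123, 112222133, 112222163, 112222213, 112222223, 112222233,
  112222243, 112222263, 1212222333, 1212222363, 112223121, 112223122, 112223131, 112223132,
  112223161, 12223211, 112223212, 112223221, 112223222, 112223231, 112223232, 112223241,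
  112223242, 112223261, 212223331, 1012223361, 512223512, 512223522, 512223532, 512223542,
  12311613, 12311623, 12311633, 12311643, 12311653, 12313172, 12313272, 12313372, 12313472,
  12321123, 12321133, 12321153, 112321223, 112321233, 112321243, 112321253, 212321333, 112323122,
  712323132, 712323152, 112323222, 712323232, 712323242, 712323252, 712323332, 512323412,
  512323422, 712323432, 21421113, 21421123, 21421143, 221421233, 821421243, 221421333, 821421343,
  821421353, 121421513, 621421523, 621421533, 821421543, 21422113, 121422123, 121422143,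
  121422163, 221422233, 821422243, 821422263, 221422333, 821422343, 821422353, 821422363,
  821422443, 22111613, 22111623, 22111633, 22111643, 22111653, 22112613, 122112623, 122112633,
  122112643, 122112653, 22113171, 22113172, 122113271, 122113272, 122113371, 122113372,
  122113471, 122113472, 22121113, 22121123, 22121143, 22121233, 22121243, 22121343, 22121353,
  22121513, 22121523, 22121533, 22121543, 22122113, 22122123, 22122143, 22122163, 122122233,
  122122243, 122122263, 1222122343, 1222122353, 1222122363, 1222122443, 22123111, 22123112,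
  22123121, 22123122, 22123141, 22123142, 22123161, 122123231, 122123232, 122123241, 122123242,
  122123261, 322123341, 322123342, 922123352, 1022123361, 322123441, 522123442, 522123512,
  522123522, 522123532, 522123542, 622212643, 222213371, 222213372, 1222222343, 1222222363,
  322223341, 322223342, 1022223361, 1322223542, 22311613, 622311623, 622311633, 622311643,
  622311653, 22313172, 222313272, 222313372, 1322313472, 22321113, 22321123, 22321143, 222321233,
  222321243, 222321313, 222321323, 222321333, 222321343, 222321353, 22323112, 122323122,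
  722323142, 722323232, 722323242, 222323312, 222323322, 722323332, 722323342, 922323352,
  1322323442, 31421153, 831421253, 831421353, 831421453, 1431421553, 31422113, 131422123,
  731422133, 731422153, 131422213, 131422223, 731422233, 831422253, 831422343, 831422353,
  331422413, 331422423, 731422433, 831422443, 831422453, 1031422463, 32111653, 732112643,
  932112653, 932113372, 932113471, 932113472, 32121353, 1232122353, 1232122443, 932123352,
  332123441, 532123442, 632211653, 32212613, 632212623, 732212633, 732212643, 932212653,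
  32213171, 32213172, 232213271, 232213272, 932213371, 932213372, 1332213471, 1332213472,
  432221453, 632221553, 32222113, 132222123, 132222133, 132222153, 132222213, 132222223,
  132222233, 132222253, 1232222343, 1232222353, 1232222453, 1232222463, 32223111, 32223112,
  132223121, 132223122, 232223131, 232223132, 232223152, 32223211, 132223212, 132223221,
  132223222, 232223231, 232223232, 232223252, 332223341, 332223342, 932223352, 1332223451,
  1332223452, 1332223461, 1332223552, 1432311653, 1332313472, 1032321453, 1332323452, 1541422563,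
  42121513, 42121523, 42121533, 42121543, 42122163, 142122263, 1242122363, 42123161, 842123261,
  1042123361, 542123512, 542123522, 542123532, 842123542, 1042221553, 1242222463, 1342223461,
  1342223552, 1542312663, 1442313572, 42321113, 42321123, 42321133, 42321143, 42321163,
  142321213, 142321223, 242321233, 342321243, 342321263, 342321313, 342321323, 342321333,
  342321343, 342321363, 1042321453, 1042321463, 1442322563, 42323112, 142323122, 742323132,
  842323142, 1042323161, 142323212, 142323222, 742323232, 842323242, 1042323261, 342323312,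
  342323322, 742323332, 842323342, 1042323361, 1342323452, 1342323461, 1442323562, 51111613,
  51111623, 51111633, 51111643, 51111653, 51112613, 51112623, 51112633, 51112643, 51112653,
  51113171, 51113172, 51113271, 51113272, 51113371, 51113372, 51113471, 51113472, 951211653,
  51212613, 651212623, 651212633, 651212643, 951212653, 51213171, 51213172, 151213271, 151213272,
  251213371, 951213372, 1351213471, 1351213472, 1451312663, 1451313572, 51411113, 51411123,
  51411133, 51411143, 51411153, 51411172, 151411223, 251411233, 851411243, 951411253, 1151411272,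
  251411323, 251411333, 851411343, 951411353, 1151411372, 951411453, 1151411472, 51412113,
  51412123, 51412133, 51412143, 51412153, 51412171, 51412213, 151412223, 251412233, 851412243,
  951412253, 151412271, 51412313, 251412323, 251412333, 851412343, 951412353, 451412371,
  51412413, 451412423, 451412433, 851412443, 951412453, 451412471, 1451412563, 1451412572,
  1652423673]

/-- The tree of reachable states. -/
def D : T := build 10 (codes.map decode)

/-- Every matching leads from the state `s` to an invalid state or to a state of smaller rank. -/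
def good (s : List ℕ) (rk : ℕ) : Bool :=
  mats.all fun M =>
    let s' := step FL s M
    !valid s' || (match D.find s' with
      | some rk' => Nat.blt rk' rk
      | none => false)

theorem D_good : D.all good = true := by decide +kernel

theorem D_start : (D.find FL).isSome = true := by decide +kernel

/-- `b` covers no conflicting pair of edges. -/
def okMask (b0 b1 b2 b3 b4 b5 b6 b7 : Bool) : Bool :=
  !(b3 && b5) && !(b3 && b6) && !(b5 && b6) && !(b4 && b7) && !(b6 && b7) && !(b0 && b1) &&
  !(b1 && b2) && !(b0 && b3) && !(b2 && b4) && !(b2 && b5) && !(b4 && b5)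

/-- `b` is contained in `M`. -/
def below : List Bool → List Bool → Bool
  | b :: bs, m :: ms => (!b || m) && below bs ms
  | _, _ => true

theorem exists_mat : ∀ b0 b1 b2 b3 b4 b5 b6 b7 : Bool, okMask b0 b1 b2 b3 b4 b5 b6 b7 = true →
    (mats.any fun M => below [b0, b1, b2, b3, b4, b5, b6, b7] M) = true := by
  decide +kernel

/-- A state as a list. -/
def toL (g : Fin 8 → ℕ) : List ℕ := [g 0, g 1, g 2, g 3, g 4, g 5, g 6, g 7]

theorem below_spec (b : Fin 8 → Bool) (M : List Bool) (hM : M ∈ mats)
    (h : below [b 0, b 1, b 2, b 3, b 4, b 5, b 6, b 7] M = true) (i : Fin 8)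
    (hi : b i = true) : M.getD i.val false = true := by
  simp only [mats, List.mem_cons, List.not_mem_nil, or_false] at hM
  rcases hM with rfl | rfl | rfl | rfl | rfl | rfl | rfl | rfl | rfl <;>
    fin_cases i <;> simp_all [below]

theorem step_spec (g : Fin 8 → ℕ) (M : List Bool) (hM : M ∈ mats) :
    step FL (toL g) M = toL fun i => if M.getD i.val false then F i else g i - 1 := by
  simp only [mats, List.mem_cons, List.not_mem_nil, or_false] at hM
  rcases hM with rfl | rfl | rfl | rfl | rfl | rfl | rfl | rfl | rfl <;>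
    simp [step, FL, toL, F]

theorem valid_spec (g : Fin 8 → ℕ) (h : ∀ i, 0 < g i) : valid (toL g) = true := by
  have h0 := h 0
  have h1 := h 1
  have h2 := h 2
  have h3 := h 3
  have h4 := h 4
  have h5 := h 5
  have h6 := h 6
  have h7 := h 7
  simp [valid, toL, *]

/-- The remaining times along a sequence of matchings. -/
def rem (M : ℕ → List Bool) : ℕ → Fin 8 → ℕ
  | 0 => F
  | t + 1 => fun i => if (M t).getD i.val false then F i else rem M t i - 1

theorem rem_served (M : ℕ → List Bool)
    (h : ∀ i : Fin 8, ∀ t, ∃ k < F i, (M (t + k)).getD i.val false = true) :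
    ∀ t i, ∃ k < rem M t i, (M (t + k)).getD i.val false = true := by
  intro t
  induction t with
  | zero => intro i; exact h i 0
  | succ t ih =>
    intro i
    by_cases hb : (M t).getD i.val false = true
    · obtain ⟨k, hk, hk'⟩ := h i (t + 1)
      refine ⟨k, ?_, hk'⟩
      simp only [rem, hb, if_true]
      exact hk
    · obtain ⟨k, hk, hk'⟩ := ih i
      have hk0 : k ≠ 0 := by
        rintro rfl
        exact hb (by simpa using hk')
      refine ⟨k - 1, ?_, ?_⟩
      · simp only [rem, hb]
        simp only [Bool.false_eq_true, if_false]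
        omega
      · have : t + 1 + (k - 1) = t + k := by omega
        rw [this]
        exact hk'

theorem no_path (M : ℕ → List Bool) (hM : ∀ t, M t ∈ mats)
    (h : ∀ i : Fin 8, ∀ t, ∃ k < F i, (M (t + k)).getD i.val false = true) : False := by
  have hserved := rem_served M h
  have hpos : ∀ t i, 0 < rem M t i := by
    intro t i
    obtain ⟨k, hk, -⟩ := hserved t i
    omega
  have key : ∀ rk : ℕ, ∀ t, D.find (toL (rem M t)) = some rk → False := by
    intro rk
    induction rk using Nat.strong_induction_on with
    | _ rk ih =>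
      intro t ht
      have hg := T.find_all good D D_good _ _ ht
      unfold good at hg
      rw [List.all_eq_true] at hg
      have h1 := hg (M t) (hM t)
      have h2 : step FL (toL (rem M t)) (M t) = toL (rem M (t + 1)) :=
        step_spec _ _ (hM t)
      simp only [h2, valid_spec _ (hpos (t + 1)), Bool.not_true, Bool.false_or] at h1
      cases hf : D.find (toL (rem M (t + 1))) with
      | none => rw [hf] at h1; simp at h1
      | some rk' =>
        rw [hf] at h1
        have hlt : rk' < rk := by simpa using h1
        exact ih rk' hlt (t + 1) hf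
  have h0 : toL (rem M 0) = FL := rfl
  have h3 := D_start
  rw [← h0] at h3
  obtain ⟨rk, hrk⟩ := Option.isSome_iff_exists.mp h3
  exact key rk 0 hrk

theorem andf {a b : Prop} [Decidable a] [Decidable b] (h : ¬ (a ∧ b)) :
    (decide a && decide b) = false := by
  by_cases ha : a <;> by_cases hb : b <;> simp_all

theorem not_schedulable : ¬ Schedulable G f := by
  rintro ⟨S, hS, hE⟩
  have hconf : ∀ t, ∀ i j : Fin 8, i ≠ j → (∃ v : Fin 7, v ∈ E i ∧ v ∈ E j) →
      ¬ (E i ∈ S t ∧ E j ∈ S t) := by
    rintro t i j hij ⟨v, hv⟩ ⟨h1, h2⟩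
    exact (hS t).2 (E i) h1 (E j) h2 (fun h => hij (E_inj h)) v hv
  have hmat : ∀ t, ∃ M ∈ mats, ∀ i : Fin 8, E i ∈ S t → M.getD i.val false = true := by
    intro t
    classical
    have hok : okMask (decide (E 0 ∈ S t)) (decide (E 1 ∈ S t)) (decide (E 2 ∈ S t))
        (decide (E 3 ∈ S t)) (decide (E 4 ∈ S t)) (decide (E 5 ∈ S t)) (decide (E 6 ∈ S t))
        (decide (E 7 ∈ S t)) = true := by
      have c1 := hconf t 3 5 (by decide) ⟨0, by decide⟩
      have c2 := hconf t 3 6 (by decide) ⟨0, by decide⟩
      have c3 := hconf t 5 6 (by decide) ⟨0, by decide⟩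
      have c4 := hconf t 4 7 (by decide) ⟨1, by decide⟩
      have c5 := hconf t 6 7 (by decide) ⟨2, by decide⟩
      have c6 := hconf t 0 1 (by decide) ⟨3, by decide⟩
      have c7 := hconf t 1 2 (by decide) ⟨4, by decide⟩
      have c8 := hconf t 0 3 (by decide) ⟨5, by decide⟩
      have c9 := hconf t 2 4 (by decide) ⟨6, by decide⟩
      have c10 := hconf t 2 5 (by decide) ⟨6, by decide⟩
      have c11 := hconf t 4 5 (by decide) ⟨6, by decide⟩
      simp only [okMask, andf c1, andf c2, andf c3, andf c4, andf c5, andf c6, andf c7, andf c8,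
        andf c9, andf c10, andf c11, Bool.not_false, Bool.and_true]
    have h1 := exists_mat _ _ _ _ _ _ _ _ hok
    rw [List.any_eq_true] at h1
    obtain ⟨M, hM, hb⟩ := h1
    refine ⟨M, hM, fun i hi => ?_⟩
    exact below_spec (fun i => decide (E i ∈ S t)) M hM hb i (by simpa using hi)
  choose M hM hcov using hmat
  refine no_path M hM fun i t => ?_
  obtain ⟨k, hk, hk'⟩ := hE (E i) ((mem_edgeSet _).mpr ⟨i, rfl⟩) t
  rw [f_E] at hk
  exact ⟨k, hk, hcov _ i hk'⟩

/-! ### The poly density -/

theorem edgeSet_eq : G.edgeSet = Set.range E := by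
  ext e
  rw [mem_edgeSet]
  rfl

theorem sum_edges (z : Sym2 (Fin 7) → ℝ) : ∑ᶠ e ∈ G.edgeSet, z e = ∑ i, z (E i) := by
  rw [edgeSet_eq, finsum_mem_range E_inj, finsum_eq_sum_of_fintype]

theorem maximal_of (M : Finset (Sym2 (Fin 7))) (h1 : ∀ e ∈ M, ∃ i, E i = e)
    (h2 : ∀ e ∈ M, ∀ e' ∈ M, e ≠ e' → ∀ v : Fin 7, ¬ (v ∈ e ∧ v ∈ e'))
    (h3 : ∀ i, E i ∉ M → ∃ e ∈ M, ∃ v : Fin 7, v ∈ E i ∧ v ∈ e) : IsMaximalMatching G M := by
  refine ⟨⟨fun e he => (mem_edgeSet e).mpr (h1 e he), h2⟩, fun M' hM' hsub => ?_⟩
  refine Finset.Subset.antisymm (fun e he => ?_) hsub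
  by_contra hne
  obtain ⟨i, rfl⟩ := (mem_edgeSet e).mp (hM'.1 e he)
  obtain ⟨e', he', v, hv⟩ := h3 i hne
  refine hM'.2 (E i) he e' (hsub he') ?_ v hv
  rintro rfl
  exact hne he'

theorem load_finite (z : Sym2 (Fin 7) → ℝ) :
    {x | ∃ M, IsMaximalMatching G M ∧ x = ∑ e ∈ M, z e * f e}.Finite := by
  refine (Set.finite_range fun M : Finset (Sym2 (Fin 7)) => ∑ e ∈ M, z e * f e).subset ?_
  rintro x ⟨M, -, rfl⟩
  exact ⟨M, rfl⟩

theorem le_maxLoad (z : Sym2 (Fin 7) → ℝ) (M : Finset (Sym2 (Fin 7)))
    (hM : IsMaximalMatching G M) : ∑ e ∈ M, z e * f e ≤ maxLoad G f z :=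
  le_csSup (load_finite z).bddAbove ⟨M, hM, rfl⟩

theorem load3 (z : Sym2 (Fin 7) → ℝ) (i j k : Fin 8) (hij : i ≠ j) (hik : i ≠ k) (hjk : j ≠ k)
    (hM : IsMaximalMatching G {E i, E j, E k}) :
    z (E i) * F i + z (E j) * F j + z (E k) * F k ≤ maxLoad G f z := by
  refine le_trans (le_of_eq ?_) (le_maxLoad z _ hM)
  rw [Finset.sum_insert, Finset.sum_insert, Finset.sum_singleton, f_E, f_E, f_E, add_assoc]
  · simpa using fun h => hjk (E_inj h)
  · simp only [Finset.mem_insert, Finset.mem_singleton, not_or]
    exact ⟨fun h => hij (E_inj h), fun h => hik (E_inj h)⟩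

theorem max134 : IsMaximalMatching G {E 1, E 3, E 4} :=
  maximal_of _ (by decide) (by decide) (by decide)
theorem max026 : IsMaximalMatching G {E 0, E 2, E 6} :=
  maximal_of _ (by decide) (by decide) (by decide)
theorem max146 : IsMaximalMatching G {E 1, E 4, E 6} :=
  maximal_of _ (by decide) (by decide) (by decide)
theorem max137 : IsMaximalMatching G {E 1, E 3, E 7} :=
  maximal_of _ (by decide) (by decide) (by decide)
theorem max237 : IsMaximalMatching G {E 2, E 3, E 7} :=
  maximal_of _ (by decide) (by decide) (by decide)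
theorem max057 : IsMaximalMatching G {E 0, E 5, E 7} :=
  maximal_of _ (by decide) (by decide) (by decide)
theorem max157 : IsMaximalMatching G {E 1, E 5, E 7} :=
  maximal_of _ (by decide) (by decide) (by decide)

theorem maxLoad_ge (z : Sym2 (Fin 7) → ℝ) (hz : IsWeighting G z) :
    21 / 17 ≤ maxLoad G f z := by
  obtain ⟨h0, h1⟩ := hz
  rw [sum_edges, Fin.sum_univ_eight] at h1
  have h7 : 0 ≤ z (E 7) := (h0 (E 7) ((mem_edgeSet _).mpr ⟨7, rfl⟩)).1
  have a1 := load3 z 1 3 4 (by decide) (by decide) (by decide) max134
  have a2 := load3 z 0 2 6 (by decide) (by decide) (by decide) max026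
  have a3 := load3 z 1 4 6 (by decide) (by decide) (by decide) max146
  have a4 := load3 z 1 3 7 (by decide) (by decide) (by decide) max137
  have a5 := load3 z 2 3 7 (by decide) (by decide) (by decide) max237
  have a6 := load3 z 0 5 7 (by decide) (by decide) (by decide) max057
  have a7 := load3 z 1 5 7 (by decide) (by decide) (by decide) max157
  have hF : (F 0 : ℝ) = 5 ∧ (F 1 : ℝ) = 2 ∧ (F 2 : ℝ) = 4 ∧ (F 3 : ℝ) = 2 ∧ (F 4 : ℝ) = 3 ∧
      (F 5 : ℝ) = 6 ∧ (F 6 : ℝ) = 7 ∧ (F 7 : ℝ) = 3 := by
    refine ⟨?_, ?_, ?_, ?_, ?_, ?_, ?_, ?_⟩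
    · rw [show F 0 = 5 from rfl]; norm_num
    · rw [show F 1 = 2 from rfl]; norm_num
    · rw [show F 2 = 4 from rfl]; norm_num
    · rw [show F 3 = 2 from rfl]; norm_num
    · rw [show F 4 = 3 from rfl]; norm_num
    · rw [show F 5 = 6 from rfl]; norm_num
    · rw [show F 6 = 7 from rfl]; norm_num
    · rw [show F 7 = 3 from rfl]; norm_num
  obtain ⟨f0, f1, f2, f3, f4, f5, f6, f7⟩ := hF
  rw [f1, f3, f4] at a1
  rw [f0, f2, f6] at a2
  rw [f1, f4, f6] at a3
  rw [f1, f3, f7] at a4
  rw [f2, f3, f7] at a5
  rw [f0, f5, f7] at a6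
  rw [f1, f5, f7] at a7
  linarith

/-- The extremal weighting, supported on the three edges at vertex `0`. -/
noncomputable def z0 (e : Sym2 (Fin 7)) : ℝ :=
  if e = E 3 then 21 / 34 else if e = E 5 then 7 / 34 else if e = E 6 then 3 / 17 else 0

theorem z0_E : z0 (E 0) = 0 ∧ z0 (E 1) = 0 ∧ z0 (E 2) = 0 ∧ z0 (E 3) = 21 / 34 ∧ z0 (E 4) = 0 ∧
    z0 (E 5) = 7 / 34 ∧ z0 (E 6) = 3 / 17 ∧ z0 (E 7) = 0 := by
  have h : ∀ i j : Fin 8, (E i = E j) = (i = j) := fun i j => by
    rw [eq_iff_iff]; exact E_inj.eq_iff
  refine ⟨?_, ?_, ?_, ?_, ?_, ?_, ?_, ?_⟩ <;> simp [z0, h]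

theorem z0_weighting : IsWeighting G z0 := by
  obtain ⟨h0, h1, h2, h3, h4, h5, h6, h7⟩ := z0_E
  refine ⟨fun e _ => ?_, ?_⟩
  · unfold z0
    split_ifs <;> norm_num
  · rw [sum_edges, Fin.sum_univ_eight, h0, h1, h2, h3, h4, h5, h6, h7]
    norm_num

theorem z0_mul (e : Sym2 (Fin 7)) :
    z0 e * f e = if e ∈ ({E 3, E 5, E 6} : Finset (Sym2 (Fin 7))) then 21 / 17 else 0 := by
  obtain ⟨h0, h1, h2, h3, h4, h5, h6, h7⟩ := z0_E
  have g3 : (f (E 3) : ℝ) = 2 := by rw [f_E, show F 3 = 2 from rfl]; norm_num
  have g5 : (f (E 5) : ℝ) = 6 := by rw [f_E, show F 5 = 6 from rfl]; norm_num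
  have g6 : (f (E 6) : ℝ) = 7 := by rw [f_E, show F 6 = 7 from rfl]; norm_num
  split_ifs with h
  · simp only [Finset.mem_insert, Finset.mem_singleton] at h
    rcases h with rfl | rfl | rfl
    · rw [h3, g3]; norm_num
    · rw [h5, g5]; norm_num
    · rw [h6, g6]; norm_num
  · simp only [Finset.mem_insert, Finset.mem_singleton, not_or] at h
    have : z0 e = 0 := by
      unfold z0
      rw [if_neg h.1, if_neg h.2.1, if_neg h.2.2]
    rw [this, zero_mul]

theorem maxLoad_z0 : maxLoad G f z0 = 21 / 17 := by
  refine le_antisymm ?_ (maxLoad_ge z0 z0_weighting)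
  refine csSup_le ⟨_, _, max134, rfl⟩ ?_
  rintro x ⟨M, hM, rfl⟩
  have h1 : ∑ e ∈ M, z0 e * f e =
      ∑ e ∈ M ∩ {E 3, E 5, E 6}, (21 / 17 : ℝ) := by
    rw [Finset.sum_congr rfl fun e _ => z0_mul e, ← Finset.sum_filter]
    congr 1
  rw [h1, Finset.sum_const, nsmul_eq_mul]
  have hcard : (M ∩ {E 3, E 5, E 6}).card ≤ 1 := by
    rw [Finset.card_le_one]
    intro a ha b hb
    by_contra hne
    rw [Finset.mem_inter] at ha hb
    have hv : ∀ e ∈ ({E 3, E 5, E 6} : Finset (Sym2 (Fin 7))), (0 : Fin 7) ∈ e := by decide
    exact hM.1.2 a ha.1 b hb.1 hne 0 ⟨hv a ha.2, hv b hb.2⟩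
  have : ((M ∩ {E 3, E 5, E 6}).card : ℝ) ≤ 1 := by exact_mod_cast hcard
  linarith

theorem polyDensity_eq : polyDensity G f = 17 / 21 := by
  have hub : ∀ d ∈ {d | ∃ z, IsWeighting G z ∧ d = 1 / maxLoad G f z}, d ≤ 17 / 21 := by
    rintro d ⟨z, hz, rfl⟩
    have h := maxLoad_ge z hz
    rw [div_le_iff₀ (by linarith)]
    linarith
  refine le_antisymm (csSup_le ⟨_, z0, z0_weighting, rfl⟩ hub) ?_
  refine le_csSup ⟨_, hub⟩ ⟨z0, z0_weighting, ?_⟩
  rw [maxLoad_z0]
  norm_num

/-- There is a polyamorous scheduling instance (a finite simple graph with a nonempty edge set and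
a frequency at least `1` for every edge) of poly density exactly `17/21 < 5/6` that has no feasible
schedule. -/
theorem result : ∃ (V : Type) (_ : Fintype V) (G : SimpleGraph V) (f : Sym2 V → ℕ),
    G.edgeSet.Nonempty ∧ (∀ e ∈ G.edgeSet, 1 ≤ f e) ∧
      polyDensity G f = 17 / 21 ∧ polyDensity G f < 5 / 6 ∧ ¬ Schedulable G f := by
  refine ⟨Fin 7, inferInstance, G, f, ⟨E 0, (mem_edgeSet _).mpr ⟨0, rfl⟩⟩, ?_, polyDensity_eq, ?_,
    not_schedulable⟩
  · intro e _
    unfold f
    split_ifs <;> norm_num
  · rw [polyDensity_eq]; norm_num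

end Pool.Agent.Results.MP_90a930_lc.FiveSixthsFails
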